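import Pool.Agent.helper64.D2.SpecF

set_option autoImplicit false

open Filter Topology
open scoped commutatorElement

namespace Pool.Agent.helper64.D2

/-- A continuous function of period one is bounded. -/
theorem PUN_bd (f : ℝ → ℝ) (hf : Continuous f) (hp : ∀ x, f (x + 1) = f x) : ∃ C : ℝ, 0 ≤ C ∧ ∀ x, |f x| ≤ C := by
  obtain ⟨C, hC⟩ := (isCompact_Icc (a := (0 : ℝ)) (b := 1)).exists_bound_of_continuousOn hf.continuousOn
  have hper : Function.Periodic f 1 := hp
  refine ⟨C, ?_, ?_⟩
  · have := hC 0 (by constructor <;> norm_num)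
    exact le_trans (norm_nonneg _) this
  · intro x
    obtain ⟨y, hy, hxy⟩ := hper.exists_mem_Ico₀ one_pos x
    rw [hxy]
    have := hC y ⟨hy.1, hy.2.le⟩
    simpa [Real.norm_eq_abs] using this

theorem PUN_per (f : ℝ → ℝ) (hp : ∀ x, f (x + 1) = f x) : ∀ x, deriv f (x + 1) = deriv f x := by
  intro x
  have h1 : (fun y => f (y + 1)) = f := funext hp
  have h2 := deriv_comp_add_const f 1 x
  rw [h1] at h2
  exact h2.symm

theorem PUN_ex (f : ℝ → ℝ) (hf : ContDiff ℝ 3 f) (hp : ∀ x, f (x + 1) = f x) :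
    ∃ C : ℝ, 0 ≤ C ∧ ∀ x, |f x| ≤ C ∧ |deriv f x| ≤ C ∧ |d2 f x| ≤ C ∧ |deriv (d2 f) x| ≤ C := by
  have h1 : ContDiff ℝ 2 (deriv f) := by
    have : ContDiff ℝ (2 + 1) f := by simpa using (by convert hf using 1; norm_num : ContDiff ℝ (2 + 1) f)
    exact (contDiff_succ_iff_deriv.1 this).2.2
  have h2 : ContDiff ℝ 1 (deriv (deriv f)) := by
    have : ContDiff ℝ (1 + 1) (deriv f) := by convert h1 using 1; norm_num
    exact (contDiff_succ_iff_deriv.1 this).2.2
  have h3 : ContDiff ℝ 0 (deriv (deriv (deriv f))) := by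
    have : ContDiff ℝ (0 + 1) (deriv (deriv f)) := by convert h2 using 1; norm_num
    exact (contDiff_succ_iff_deriv.1 this).2.2
  have p1 := PUN_per f hp
  have p2 := PUN_per _ p1
  have p3 := PUN_per _ p2
  obtain ⟨C0, c0, hC0⟩ := PUN_bd f hf.continuous hp
  obtain ⟨C1, c1, hC1⟩ := PUN_bd _ h1.continuous p1
  obtain ⟨C2, c2, hC2⟩ := PUN_bd _ h2.continuous p2
  obtain ⟨C3, c3, hC3⟩ := PUN_bd _ h3.continuous p3
  refine ⟨C0 + C1 + C2 + C3, by positivity, fun x => ⟨?_, ?_, ?_, ?_⟩⟩
  · linarith [hC0 x]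
  · linarith [hC1 x]
  · have := hC2 x
    show |deriv (deriv f) x| ≤ _
    linarith
  · have := hC3 x
    show |deriv (deriv (deriv f)) x| ≤ _
    linarith

theorem PUN_cos (N : ℕ) (hN : 3 ≤ N) (y : ℝ) (h : Real.cos (2 * Real.pi / N) < Real.cos (2 * Real.pi * y)) :
    ∃ n : ℤ, |y + n| ≤ 1 / N := by
  have hN0 : (0 : ℝ) < N := by positivity
  refine ⟨-round y, ?_⟩
  by_contra hcon
  push Not at hcon
  have h1 : |y - round y| ≤ 1 / 2 := abs_sub_round y
  have e1 : y + ((-round y : ℤ) : ℝ) = y - round y := by push_cast; ring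
  rw [e1] at hcon
  have h2 : Real.cos (2 * Real.pi * y) = Real.cos (2 * Real.pi * |y - round y|) := by
    have : Real.cos (2 * Real.pi * |y - round y|) = Real.cos (2 * Real.pi * (y - round y)) := by
      rcases abs_cases (y - round y) with h | h
      · rw [h.1]
      · rw [h.1, mul_neg, Real.cos_neg]
    rw [this]
    have : 2 * Real.pi * (y - round y) = 2 * Real.pi * y - (round y : ℤ) * (2 * Real.pi) := by ring
    rw [this, Real.cos_sub_int_mul_two_pi]
  have hpi := Real.pi_pos
  have h3 : Real.cos (2 * Real.pi * |y - round y|) < Real.cos (2 * Real.pi / N) := by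
    apply Real.strictAntiOn_cos
    · constructor
      · positivity
      · rw [div_le_iff₀ hN0]
        have : (3 : ℝ) ≤ N := by exact_mod_cast hN
        nlinarith
    · constructor
      · positivity
      · nlinarith
    · have : 2 * Real.pi / N = 2 * Real.pi * (1 / N) := by ring
      rw [this]
      exact mul_lt_mul_of_pos_left hcon (by positivity)
  linarith

theorem PUN_pos (N : ℕ) (hN : 3 ≤ N) (x : ℝ) : ∃ k < N, Real.cos (2 * Real.pi / N) < Real.cos (2 * Real.pi * (x - (k : ℝ) / N)) := by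
  have hN0 : (0 : ℝ) < N := by positivity
  have hNz : (0 : ℤ) < N := by exact_mod_cast (by omega : 0 < N)
  set m : ℤ := ⌊(N : ℝ) * x⌋ with hm
  have a1 : (m : ℝ) ≤ N * x := Int.floor_le _
  have a2 : (N : ℝ) * x < m + 1 := Int.lt_floor_add_one _
  have b1 : 0 ≤ m % N := Int.emod_nonneg _ (by omega)
  have b2 : m % N < N := Int.emod_lt_of_pos _ hNz
  have b3 : m % N + N * (m / N) = m := Int.emod_add_mul_ediv m N
  obtain ⟨k, hk⟩ := Int.eq_ofNat_of_zero_le b1
  refine ⟨k, by omega, ?_⟩
  have c1 : (k : ℝ) + N * ((m / N : ℤ) : ℝ) = m := by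
    rw [hk] at b3
    exact_mod_cast b3
  set q : ℤ := m / N with hq
  have hpi := Real.pi_pos
  have e1 : Real.cos (2 * Real.pi * (x - (k : ℝ) / N)) = Real.cos (2 * Real.pi * ((N * x - m) / N)) := by
    have : 2 * Real.pi * ((N * x - m) / N) = 2 * Real.pi * (x - (k : ℝ) / N) - q * (2 * Real.pi) := by
      rw [← c1]
      field_simp
      ring
    rw [this, Real.cos_sub_int_mul_two_pi]
  rw [e1]
  apply Real.strictAntiOn_cos
  · constructor
    · have : 0 ≤ (N * x - m) / N := div_nonneg (by linarith) hN0.le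
      positivity
    · have h1 : (N * x - m) / N ≤ 1 / N := div_le_div_of_nonneg_right (by linarith) hN0.le
      have h2 : (1 : ℝ) / N ≤ 1 / 3 := by
        apply one_div_le_one_div_of_le (by norm_num)
        exact_mod_cast hN
      nlinarith
  · constructor
    · positivity
    · rw [div_le_iff₀ hN0]
      have : (3 : ℝ) ≤ N := by exact_mod_cast hN
      nlinarith
  · have : 2 * Real.pi / N = 2 * Real.pi * (1 / N) := by ring
    rw [this]
    apply mul_lt_mul_of_pos_left _ (by positivity)
    exact div_lt_div_of_pos_right (by linarith) hN0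

theorem PUN : PUN_stmt := by
  intro N hN
  have hN0 : (0 : ℝ) < N := by positivity
  set σ : ℝ → ℝ := fun x => Real.smoothTransition (Real.cos (2 * Real.pi * x) - Real.cos (2 * Real.pi / N)) with hσ
  have s0 : ∀ x, 0 ≤ σ x := fun x => Real.smoothTransition.nonneg _
  have s1 : ∀ x, σ (x + 1) = σ x := by
    intro x
    have : 2 * Real.pi * (x + 1) = 2 * Real.pi * x + 2 * Real.pi := by ring
    simp only [hσ, this, Real.cos_add_two_pi]
  have s2 : ContDiff ℝ 3 σ := by
    have h1 : ContDiff ℝ 3 (fun x : ℝ => Real.cos (2 * Real.pi * x) - Real.cos (2 * Real.pi / N)) :=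
      (Real.contDiff_cos.comp (contDiff_const.mul contDiff_id)).sub contDiff_const
    exact Real.smoothTransition.contDiff.comp h1
  have s3 : ∀ x, Real.cos (2 * Real.pi / N) < Real.cos (2 * Real.pi * x) → 0 < σ x := fun x hx =>
    Real.smoothTransition.pos_of_pos (by linarith)
  have s4 : ∀ x, ¬ Real.cos (2 * Real.pi / N) < Real.cos (2 * Real.pi * x) → σ x = 0 := fun x hx =>
    Real.smoothTransition.zero_of_nonpos (by linarith [not_lt.1 hx])
  set w : ℕ → ℝ → ℝ := fun k x => σ (x - (k : ℝ) / N) with hw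
  have w0 : ∀ k x, 0 ≤ w k x := fun k x => s0 _
  have w1 : ∀ k x, w k (x + 1) = w k x := by
    intro k x
    have : x + 1 - (k : ℝ) / N = (x - (k : ℝ) / N) + 1 := by ring
    simp only [hw, this, s1]
  have w2 : ∀ k, ContDiff ℝ 3 (w k) := fun k => s2.comp (contDiff_id.sub contDiff_const)
  set S : ℝ → ℝ := fun x => ∑ k ∈ Finset.range N, w k x with hS
  have S0 : ∀ x, 0 < S x := by
    intro x
    obtain ⟨k, hk, hk'⟩ := PUN_pos N hN x
    exact Finset.sum_pos' (fun i _ => w0 i x) ⟨k, Finset.mem_range.2 hk, s3 _ hk'⟩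
  have S1 : ∀ x, S (x + 1) = S x := by
    intro x
    simp only [hS, w1]
  have S2 : ContDiff ℝ 3 S := ContDiff.sum (fun k _ => w2 k)
  set χ : ℕ → ℝ → ℝ := fun k x => if k < N then w k x / S x else 0 with hχ
  have χc : ∀ k, ContDiff ℝ 3 (χ k) := by
    intro k
    by_cases hk : k < N
    · simp only [hχ, if_pos hk]
      exact (w2 k).div S2 (fun x => (S0 x).ne')
    · simp only [hχ, if_neg hk]
      exact contDiff_const
  have χp : ∀ k x, χ k (x + 1) = χ k x := by
    intro k x
    simp only [hχ, w1, S1]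
  have χn : ∀ k x, 0 ≤ χ k x := by
    intro k x
    simp only [hχ]
    split_ifs
    · exact div_nonneg (w0 k x) (S0 x).le
    · exact le_rfl
  choose C hC0 hC using fun k => PUN_ex (χ k) (χc k) (χp k)
  refine ⟨χ, 1 + ∑ k ∈ Finset.range N, C k, ?_, χc, fun k x => ⟨χp k x, χn k x⟩, ?_, ?_, ?_⟩
  · have : 0 ≤ ∑ k ∈ Finset.range N, C k := Finset.sum_nonneg (fun k _ => hC0 k)
    linarith
  · intro x
    have h1 : ∀ k ∈ Finset.range N, χ k x = w k x / S x := by
      intro k hk
      simp only [hχ, if_pos (Finset.mem_range.1 hk)]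
    rw [Finset.sum_congr rfl h1, ← Finset.sum_div]
    exact div_self (S0 x).ne'
  · intro k x hx
    by_cases hk : k < N
    · have hw0 : w k x = 0 := by
        apply s4
        intro hlt
        obtain ⟨n, hn⟩ := PUN_cos N hN _ hlt
        apply hx n
        rw [abs_le] at hn
        constructor <;> linarith [hn.1, hn.2]
      simp only [hχ, if_pos hk, hw0, zero_div]
    · simp only [hχ, if_neg hk]
  · have hs : ∀ k, k < N → C k ≤ 1 + ∑ k ∈ Finset.range N, C k := by
      intro k hk
      have := Finset.single_le_sum (f := C) (fun i _ => hC0 i) (Finset.mem_range.2 hk)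
      linarith
    have hz : 0 ≤ 1 + ∑ k ∈ Finset.range N, C k := by
      have : 0 ≤ ∑ k ∈ Finset.range N, C k := Finset.sum_nonneg (fun k _ => hC0 k)
      linarith
    intro k x
    by_cases hk : k < N
    · obtain ⟨h1, h2, h3, h4⟩ := hC k x
      have := hs k hk
      exact ⟨by linarith, by linarith, by linarith, by linarith⟩
    · have e : χ k = fun _ => 0 := by
        funext y
        simp only [hχ, if_neg hk]
      have e1 : deriv (fun _ : ℝ => (0 : ℝ)) = fun _ => 0 := by
        funext y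
        exact deriv_const y 0
      have e2 : d2 (fun _ : ℝ => (0 : ℝ)) = fun _ => 0 := by
        unfold d2
        rw [e1, e1]
      rw [e, e2, e1]
      simp only [abs_zero]
      exact ⟨hz, hz, hz, hz⟩

end Pool.Agent.helper64.D2
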